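import Pool.Agent.Q320.AP.Step

/-! Assouad dimension: definitions, lower bound from patterns, upper bound. -/

set_option autoImplicit false
set_option linter.unusedSectionVars false

namespace Pool.Agent.Q320.AP

open Filter Topology
open scoped RealInnerProductSpace

/-- `A` can be covered by `n` open sets of diameter at most `r`. -/
def HasCover {X : Type*} [MetricSpace X] (A : Set X) (r : ℝ) (n : ℕ) : Prop :=
  ∃ U : Fin n → Set X, (∀ i, IsOpen (U i)) ∧ (∀ i, ∀ x ∈ U i, ∀ y ∈ U i, dist x y ≤ r) ∧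
    A ⊆ ⋃ i, U i

/-- The Assouad dimension. -/
noncomputable def dimA {X : Type*} [MetricSpace X] (A : Set X) : ℝ :=
  sInf {s : ℝ | 0 ≤ s ∧ ∃ C > 0, ∀ r R : ℝ, 0 < r → r < R → ∀ x ∈ A,
    ∃ n : ℕ, HasCover (Metric.ball x R ∩ A) r n ∧ (n : ℝ) ≤ C * (R / r) ^ s}

lemma hasCover_of_fintype {X : Type*} [MetricSpace X] {A : Set X} {r : ℝ} {κ : Type*}
    [Fintype κ] (U : κ → Set X) (h1 : ∀ i, IsOpen (U i))
    (h2 : ∀ i, ∀ x ∈ U i, ∀ y ∈ U i, dist x y ≤ r) (h3 : A ⊆ ⋃ i, U i) :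
    HasCover A r (Fintype.card κ) := by
  refine ⟨fun i => U ((Fintype.equivFin κ).symm i), fun i => h1 _, fun i => h2 _, ?_⟩
  intro x hx
  obtain ⟨i, hi⟩ := Set.mem_iUnion.mp (h3 hx)
  refine Set.mem_iUnion.mpr ⟨Fintype.equivFin κ i, ?_⟩
  rw [Equiv.symm_apply_apply]
  exact hi

lemma card_le_of_hasCover {X : Type*} [MetricSpace X] {A : Set X} {r : ℝ} {n : ℕ}
    (h : HasCover A r n) {κ : Type*} [Fintype κ] (p : κ → X) (hp : ∀ i, p i ∈ A)
    (hsep : ∀ i j, i ≠ j → r < dist (p i) (p j)) : Fintype.card κ ≤ n := by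
  obtain ⟨U, -, h2, h3⟩ := h
  have h4 : ∀ i, ∃ j, p i ∈ U j := fun i => Set.mem_iUnion.mp (h3 (hp i))
  choose f hf using h4
  have hinj : Function.Injective f := by
    intro i j hij
    by_contra hne
    have h5 := hsep i j hne
    have h6 := h2 (f i) (p i) (hf i) (p j) (by rw [hij]; exact hf j)
    linarith
  have := Fintype.card_le_of_injective f hinj
  rwa [Fintype.card_fin] at this

lemma exponent_aux {k : ℕ} {s C : ℝ} (hC : 0 < C) (hs : 0 ≤ s)
    (h : ∀ n : ℕ, ((n + 1 : ℕ) : ℝ) ^ k ≤ C * (2 * ((k : ℝ) * n + 1)) ^ s) : (k : ℝ) ≤ s := by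
  by_contra hlt
  push Not at hlt
  set C' := C * (2 * ((k : ℝ) + 1)) ^ s with hC'
  have hlim : Tendsto (fun n : ℕ => ((n + 1 : ℕ) : ℝ) ^ ((k : ℝ) - s)) atTop atTop :=
    (tendsto_rpow_atTop (by linarith)).comp
      (tendsto_natCast_atTop_atTop.comp (tendsto_add_atTop_nat 1))
  obtain ⟨n, hn⟩ := (hlim.eventually (eventually_gt_atTop C')).exists
  have h1 := h n
  have hn0 : (0 : ℝ) < ((n + 1 : ℕ) : ℝ) := by positivity
  have h2 : (2 * ((k : ℝ) * n + 1)) ^ s ≤ (2 * ((k : ℝ) + 1)) ^ s * ((n + 1 : ℕ) : ℝ) ^ s := by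
    rw [← Real.mul_rpow (by positivity) hn0.le]
    refine Real.rpow_le_rpow (by positivity) ?_ hs
    push_cast
    have hk : (0 : ℝ) ≤ k := Nat.cast_nonneg k
    have hn' : (0 : ℝ) ≤ n := Nat.cast_nonneg n
    nlinarith
  have h3 : ((n + 1 : ℕ) : ℝ) ^ ((k : ℝ) - s) * ((n + 1 : ℕ) : ℝ) ^ s ≤
      C' * ((n + 1 : ℕ) : ℝ) ^ s := by
    rw [← Real.rpow_add hn0, sub_add_cancel, Real.rpow_natCast]
    calc ((n + 1 : ℕ) : ℝ) ^ k ≤ C * (2 * ((k : ℝ) * n + 1)) ^ s := h1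
      _ ≤ C * ((2 * ((k : ℝ) + 1)) ^ s * ((n + 1 : ℕ) : ℝ) ^ s) :=
          mul_le_mul_of_nonneg_left h2 hC.le
      _ = _ := by rw [hC']; ring
  have h4 := le_of_mul_le_mul_right h3 (Real.rpow_pos_of_pos hn0 s)
  linarith

variable {E : Type*} [NormedAddCommGroup E] [InnerProductSpace ℝ E] [FiniteDimensional ℝ E]

section grid
variable {F : Set E} {W : Submodule ℝ E}
  (hstep : ∀ P : Set E, Pat F W P → ∀ u ∈ W, Pat F W (P ∪ (fun s => u + s) '' P))
include hstep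

lemma pat_line {P : Set E} (hP : Pat F W P) {u : E} (hu : u ∈ W) (m : ℕ) :
    Pat F W {s | ∃ s' ∈ P, ∃ i : ℕ, i ≤ m ∧ s = s' + (i : ℝ) • u} := by
  induction m with
  | zero =>
    refine hP.mono ?_
    rintro s ⟨s', hs', i, hi, rfl⟩
    obtain rfl : i = 0 := by omega
    simpa using hs'
  | succ m ih =>
    refine (hstep _ ih u hu).mono ?_
    rintro s ⟨s', hs', i, hi, rfl⟩
    by_cases him : i ≤ m
    · exact Or.inl ⟨s', hs', i, him, rfl⟩
    · obtain rfl : i = m + 1 := by omega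
      refine Or.inr ⟨s' + (m : ℝ) • u, ⟨s', hs', m, le_refl _, rfl⟩, ?_⟩
      push_cast
      module

lemma pat_grid (hne : F.Nonempty) {k : ℕ} (b : Fin k → E) (hb : ∀ j, b j ∈ W) (n : ℕ)
    (J : Finset (Fin k)) :
    Pat F W {s | ∃ m : Fin k → ℕ, (∀ j, m j ≤ n) ∧ s = ∑ j ∈ J, (m j : ℝ) • b j} := by
  classical
  induction J using Finset.induction with
  | empty =>
    refine (pat_zero hne W).mono ?_
    rintro s ⟨m, -, rfl⟩
    simp
  | insert j J hj ih =>
    refine (pat_line hstep ih (hb j) n).mono ?_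
    rintro s ⟨m, hm, rfl⟩
    refine ⟨∑ j ∈ J, (m j : ℝ) • b j, ⟨m, hm, rfl⟩, m j, hm j, ?_⟩
    rw [Finset.sum_insert hj, add_comm]

end grid

lemma lower_bound {F : Set E} (hne : F.Nonempty) {W : Submodule ℝ E}
    (hstep : ∀ P : Set E, Pat F W P → ∀ u ∈ W, Pat F W (P ∪ (fun s => u + s) '' P))
    {s C : ℝ} (hs : 0 ≤ s) (hC : 0 < C)
    (h : ∀ r R : ℝ, 0 < r → r < R → ∀ x ∈ W.starProjection '' F,
      ∃ n : ℕ, HasCover (Metric.ball x R ∩ (W.starProjection '' F)) r n ∧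
        (n : ℝ) ≤ C * (R / r) ^ s) : (Module.finrank ℝ W : ℝ) ≤ s := by
  set k := Module.finrank ℝ W with hk
  refine exponent_aux hC hs fun n => ?_
  set b := stdOrthonormalBasis ℝ W with hb
  have hgrid := pat_grid hstep hne (fun j => (b j : E)) (fun j => (b j).2) n Finset.univ
  obtain ⟨ρ, hρ, τ, hx⟩ := hgrid (1 / 8) (by norm_num)
  have hx' : ∀ m : Fin k → Fin (n + 1), ∃ x ∈ F,
      ‖W.starProjection x - (τ + ρ • ∑ j, ((m j : ℕ) : ℝ) • (b j : E))‖ ≤ 1 / 8 * ρ := by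
    intro m
    exact hx _ ⟨fun j => (m j : ℕ), fun j => Nat.lt_succ_iff.mp (m j).2, rfl⟩
  choose x hxF hxn using hx'
  set S : (Fin k → Fin (n + 1)) → E := fun m => ∑ j, ((m j : ℕ) : ℝ) • (b j : E) with hS
  have hSsub : ∀ m m', S m - S m' =
      ((∑ j, (((m j : ℕ) : ℝ) - ((m' j : ℕ) : ℝ)) • b j : W) : E) := by
    intro m m'
    rw [hS]
    simp only [sub_smul, Finset.sum_sub_distrib, Submodule.coe_sub, Submodule.coe_sum,
      Submodule.coe_smul]
  have hcoord : ∀ m m', ∀ j, |((m j : ℕ) : ℝ) - ((m' j : ℕ) : ℝ)| ≤ ‖S m - S m'‖ := by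
    intro m m' j
    rw [hSsub]
    set w : W := ∑ j, (((m j : ℕ) : ℝ) - ((m' j : ℕ) : ℝ)) • b j with hw
    have h1 : ⟪b j, w⟫ = ((m j : ℕ) : ℝ) - ((m' j : ℕ) : ℝ) := by
      rw [hw]
      exact b.orthonormal.inner_right_fintype _ j
    rw [← h1]
    have h2 := abs_real_inner_le_norm (b j) w
    rw [b.orthonormal.1 j, one_mul] at h2
    exact h2
  have hSn : ∀ m m', ‖S m - S m'‖ ≤ k * n := by
    intro m m'
    have h1 : S m - S m' = ∑ j, (((m j : ℕ) : ℝ) - ((m' j : ℕ) : ℝ)) • (b j : E) := by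
      rw [hS]
      simp only [sub_smul, Finset.sum_sub_distrib]
    rw [h1]
    refine le_trans (norm_sum_le _ _) ?_
    calc ∑ j, ‖(((m j : ℕ) : ℝ) - ((m' j : ℕ) : ℝ)) • (b j : E)‖ ≤ ∑ j : Fin k, (n : ℝ) := by
          refine Finset.sum_le_sum fun j _ => ?_
          rw [norm_smul]
          have h2 : ‖(b j : E)‖ = 1 := b.orthonormal.1 j
          rw [h2, mul_one, Real.norm_eq_abs, abs_le]
          have h3 : ((m j : ℕ) : ℝ) ≤ n := by exact_mod_cast Nat.lt_succ_iff.mp (m j).2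
          have h4 : ((m' j : ℕ) : ℝ) ≤ n := by exact_mod_cast Nat.lt_succ_iff.mp (m' j).2
          have h5 : (0 : ℝ) ≤ ((m j : ℕ) : ℝ) := Nat.cast_nonneg _
          have h6 : (0 : ℝ) ≤ ((m' j : ℕ) : ℝ) := Nat.cast_nonneg _
          constructor <;> linarith
      _ = k * n := by simp
  have hS1 : ∀ m m', m ≠ m' → 1 ≤ ‖S m - S m'‖ := by
    intro m m' hne
    obtain ⟨j, hj⟩ := Function.ne_iff.mp hne
    refine le_trans ?_ (hcoord m m' j)
    have h1 : ((m j : ℕ) : ℤ) - ((m' j : ℕ) : ℤ) ≠ 0 := by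
      intro h
      apply hj
      apply Fin.ext
      omega
    have h2 : (1 : ℤ) ≤ |((m j : ℕ) : ℤ) - ((m' j : ℕ) : ℤ)| := Int.one_le_abs h1
    exact_mod_cast h2
  set p : (Fin k → Fin (n + 1)) → E := fun m => W.starProjection (x m) with hp
  have hpd : ∀ m m', ‖(p m - p m') - ρ • (S m - S m')‖ ≤ 1 / 4 * ρ := by
    intro m m'
    have h1 := hxn m
    have h2 := hxn m'
    have h3 : (p m - p m') - ρ • (S m - S m') =
        (W.starProjection (x m) - (τ + ρ • S m)) - (W.starProjection (x m') - (τ + ρ • S m')) := by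
      rw [hp, smul_sub]; simp only; abel
    rw [h3]
    refine le_trans (norm_sub_le _ _) ?_
    have e1 : ‖W.starProjection (x m) - (τ + ρ • S m)‖ ≤ 1 / 8 * ρ := h1
    have e2 : ‖W.starProjection (x m') - (τ + ρ • S m')‖ ≤ 1 / 8 * ρ := h2
    linarith
  have hsep : ∀ m m', m ≠ m' → ρ / 2 < dist (p m) (p m') := by
    intro m m' hmm
    rw [dist_eq_norm]
    have h1 : ‖ρ • (S m - S m')‖ ≤ ‖p m - p m'‖ + ‖(p m - p m') - ρ • (S m - S m')‖ := by
      calc ‖ρ • (S m - S m')‖ = ‖(p m - p m') - ((p m - p m') - ρ • (S m - S m'))‖ := by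
            congr 1; abel
        _ ≤ _ := norm_sub_le _ _
    rw [norm_smul, Real.norm_of_nonneg hρ.le] at h1
    have h2 := hS1 m m' hmm
    have h3 := hpd m m'
    nlinarith
  set m0 : Fin k → Fin (n + 1) := fun _ => 0 with hm0
  have hk0 : (0 : ℝ) ≤ k := Nat.cast_nonneg k
  have hn0 : (0 : ℝ) ≤ n := Nat.cast_nonneg n
  have hkn : (0 : ℝ) ≤ k * n := mul_nonneg hk0 hn0
  obtain ⟨N, hN, hN'⟩ := h (ρ / 2) (ρ * (k * n + 1)) (half_pos hρ) (by nlinarith) (p m0)
    ⟨x m0, hxF m0, rfl⟩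
  have hcard := card_le_of_hasCover hN p (fun m => ⟨?_, ⟨x m, hxF m, rfl⟩⟩) hsep
  · rw [Fintype.card_fun, Fintype.card_fin, Fintype.card_fin] at hcard
    have h1 : (((n + 1) ^ k : ℕ) : ℝ) ≤ N := by exact_mod_cast hcard
    rw [Nat.cast_pow] at h1
    refine le_trans h1 (le_trans hN' (le_of_eq ?_))
    congr 2
    field_simp
  · rw [Metric.mem_ball, dist_eq_norm]
    have h1 : ‖p m - p m0‖ ≤ ‖ρ • (S m - S m0)‖ + ‖(p m - p m0) - ρ • (S m - S m0)‖ := by
      calc ‖p m - p m0‖ = ‖ρ • (S m - S m0) + ((p m - p m0) - ρ • (S m - S m0))‖ := by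
            congr 1; abel
        _ ≤ _ := norm_add_le _ _
    rw [norm_smul, Real.norm_of_nonneg hρ.le] at h1
    have h2 := hSn m m0
    have h3 := hpd m m0
    have h4 : ρ * ‖S m - S m0‖ ≤ ρ * (k * n) := mul_le_mul_of_nonneg_left h2 hρ.le
    linarith

lemma upper_bound (W : Submodule ℝ E) {A : Set E} (hA : A ⊆ W) :
    ∃ C > 0, ∀ r R : ℝ, 0 < r → r < R → ∀ x ∈ A,
    ∃ n : ℕ, HasCover (Metric.ball x R ∩ A) r n ∧
      (n : ℝ) ≤ C * (R / r) ^ (Module.finrank ℝ W : ℝ) := by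
  set k := Module.finrank ℝ W with hk
  set b := stdOrthonormalBasis ℝ W with hb
  refine ⟨(4 * k + 7) ^ k, by positivity, fun r R hr hrR x hx => ?_⟩
  have hR : 0 < R := by linarith
  have hk0 : (0 : ℝ) ≤ k := Nat.cast_nonneg k
  set h := r / (2 * ((k : ℝ) + 1)) with hh
  have hh0 : 0 < h := by positivity
  set N := ⌈R / h⌉₊ with hN
  have hN1 : R / h ≤ N := Nat.le_ceil _
  have hN2 : (N : ℝ) < R / h + 1 := Nat.ceil_lt_add_one (by positivity)
  set U : (Fin k → Fin (2 * N + 1)) → Set E := fun i =>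
    Metric.ball (x + ∑ j, (h * (((i j : ℕ) : ℝ) - N)) • (b j : E)) (r / 2) with hU
  refine ⟨Fintype.card (Fin k → Fin (2 * N + 1)), hasCover_of_fintype U
    (fun i => Metric.isOpen_ball) ?_ ?_, ?_⟩
  · intro i y hy z hz
    have h1 := Metric.mem_ball.mp hy
    have h2 := Metric.mem_ball.mp hz
    have h3 := dist_triangle_right y z (x + ∑ j, (h * (((i j : ℕ) : ℝ) - N)) • (b j : E))
    linarith
  · rintro y ⟨hyb, hyA⟩
    have hwW : y - x ∈ W := W.sub_mem (hA hyA) (hA hx)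
    set w : W := ⟨y - x, hwW⟩ with hw
    have hwn : ‖w‖ < R := by
      have := Metric.mem_ball.mp hyb
      rwa [dist_eq_norm] at this
    set a : Fin k → ℝ := fun j => ⟪b j, w⟫ with ha
    have han : ∀ j, |a j| < R := by
      intro j
      have h2 := abs_real_inner_le_norm (b j) w
      rw [b.orthonormal.1 j, one_mul] at h2
      exact lt_of_le_of_lt h2 hwn
    have hsum : ∑ j, a j • (b j : E) = y - x := by
      have h1 := b.sum_repr' w
      have h2 := congrArg (fun v : W => (v : E)) h1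
      simp only [Submodule.coe_sum, Submodule.coe_smul] at h2
      exact h2
    have hfl : ∀ j, -(N : ℤ) ≤ ⌊a j / h⌋ ∧ ⌊a j / h⌋ ≤ N := by
      intro j
      have h1 := abs_lt.mp (han j)
      constructor
      · rw [Int.le_floor]
        push_cast
        rw [neg_le, ← neg_div]
        refine le_trans ?_ hN1
        exact div_le_div_of_nonneg_right (by linarith) hh0.le
      · have h2 : (⌊a j / h⌋ : ℝ) ≤ N := by
          refine le_trans (Int.floor_le _) (le_trans ?_ hN1)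
          exact div_le_div_of_nonneg_right (by linarith) hh0.le
        exact_mod_cast h2
    refine Set.mem_iUnion.mpr ⟨fun j => ⟨(⌊a j / h⌋ + N).toNat, ?_⟩, ?_⟩
    · have := hfl j
      omega
    · rw [hU]
      simp only
      rw [Metric.mem_ball, dist_eq_norm]
      have hcast : ∀ j, (((⌊a j / h⌋ + N).toNat : ℕ) : ℝ) - N = (⌊a j / h⌋ : ℝ) := by
        intro j
        have h1 : (((⌊a j / h⌋ + N).toNat : ℕ) : ℤ) = ⌊a j / h⌋ + N :=
          Int.toNat_of_nonneg (by have := hfl j; omega)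
        have h2 : (((⌊a j / h⌋ + N).toNat : ℕ) : ℝ) = (⌊a j / h⌋ : ℝ) + N := by
          exact_mod_cast h1
        rw [h2]; ring
      have h1 : y - (x + ∑ j, (h * ((((⌊a j / h⌋ + N).toNat : ℕ) : ℝ) - N)) • (b j : E)) =
          ∑ j, (a j - h * (⌊a j / h⌋ : ℝ)) • (b j : E) := by
        simp only [hcast, sub_smul, Finset.sum_sub_distrib, hsum]
        abel
      rw [h1]
      calc ‖∑ j, (a j - h * (⌊a j / h⌋ : ℝ)) • (b j : E)‖
          ≤ ∑ j, ‖(a j - h * (⌊a j / h⌋ : ℝ)) • (b j : E)‖ := norm_sum_le _ _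
        _ ≤ ∑ j : Fin k, h := by
            refine Finset.sum_le_sum fun j _ => ?_
            rw [norm_smul]
            have h2 : ‖(b j : E)‖ = 1 := b.orthonormal.1 j
            rw [h2, mul_one, Real.norm_eq_abs]
            have h3 : a j = h * (a j / h) := by field_simp
            have h4 := Int.floor_le (a j / h)
            have h5 := Int.lt_floor_add_one (a j / h)
            have h6 : a j - h * (⌊a j / h⌋ : ℝ) = h * (a j / h - ⌊a j / h⌋) := by
              rw [mul_sub, ← h3]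
            rw [h6, abs_mul, abs_of_pos hh0, abs_of_nonneg (by linarith)]
            nlinarith
        _ = k * h := by simp
        _ < r / 2 := by
            rw [hh, mul_div_assoc', div_lt_div_iff₀ (by positivity) (by norm_num)]
            nlinarith
  · rw [Fintype.card_fun, Fintype.card_fin, Fintype.card_fin, Real.rpow_natCast, ← mul_pow,
      Nat.cast_pow]
    refine pow_le_pow_left₀ (by positivity) ?_ k
    push_cast
    have h1 : R / h = 2 * (k + 1) * (R / r) := by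
      rw [hh]; field_simp
    have h2 : 1 < R / r := by rw [one_lt_div hr]; exact hrR
    rw [h1] at hN2
    nlinarith

theorem main {ι : Type*} {c : ι → ℝ} {O : ι → (E ≃ₗᵢ[ℝ] E)} {t : ι → E}
    (hc : ∀ i, 0 < c i) (hc1 : ∀ i, c i < 1) (hO : DenseRot O)
    {F : Set E} (hcp : IsCompact F) (hnt : F.Nontrivial) (hF : F = ⋃ i, sim c O t i '' F)
    {W : Submodule ℝ E} (hW : W ≠ ⊤) :
    dimA (W.starProjection '' F) = Module.finrank ℝ W := by
  have hne := hnt.nonempty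
  have hι : Nonempty ι := by
    obtain ⟨x, hx⟩ := hne
    rw [hF] at hx
    obtain ⟨i, -⟩ := Set.mem_iUnion.mp hx
    exact ⟨i⟩
  obtain ⟨M0, hM0⟩ := hcp.isBounded.exists_norm_le
  set M := max M0 1 with hM
  have hM1 : 1 ≤ M := le_max_right _ _
  have hMF : ∀ x ∈ F, ‖x‖ ≤ M := fun x hx => le_trans (hM0 x hx) (le_max_left _ _)
  obtain ⟨κ, hκ, hpair⟩ := pair_lemma hc hc1 (exists_two_fix hc hc1 hcp hnt hF)
  have hWo : Wᗮ ≠ ⊥ := fun h => hW (Submodule.orthogonal_eq_bot_iff.mp h)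
  obtain ⟨q, hq, hq0⟩ := Submodule.exists_mem_ne_zero_of_ne_bot hWo
  have hq0' : ‖q‖ ≠ 0 := norm_ne_zero_iff.mpr hq0
  have hstep : ∀ P : Set E, Pat F W P → ∀ u ∈ W, Pat F W (P ∪ (fun s => u + s) '' P) := by
    intro P hP u hu
    refine pat_step hc hc1 hO hne hF hM1 hMF hκ hpair (q0 := ‖q‖⁻¹ • q) ?_ ?_ hP hu
    · rw [norm_smul, norm_inv, norm_norm, inv_mul_cancel₀ hq0']
    · exact Wᗮ.smul_mem _ hq
  have hAW : W.starProjection '' F ⊆ W := by
    rintro _ ⟨x, -, rfl⟩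
    exact Submodule.starProjection_apply_mem W x
  unfold dimA
  apply le_antisymm
  · refine csInf_le ⟨0, fun s hs => hs.1⟩ ⟨Nat.cast_nonneg _, ?_⟩
    exact upper_bound W hAW
  · refine le_csInf ⟨_, Nat.cast_nonneg _, upper_bound W hAW⟩ ?_
    rintro s ⟨hs, C, hC, h⟩
    exact lower_bound hne hstep hs hC h

end Pool.Agent.Q320.AP
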