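import Mathlib

/-! Linear isometries: recurrence, rotations between vectors. -/

set_option autoImplicit false

namespace Pool.Agent.Q320.AP

open Filter Topology
open scoped RealInnerProductSpace

variable {E : Type*} [NormedAddCommGroup E] [InnerProductSpace ℝ E] [FiniteDimensional ℝ E]

lemma recur (g : E ≃ₗᵢ[ℝ] E) {ε : ℝ} (hε : 0 < ε) (N : ℕ) :
    ∃ n ≥ N, 1 ≤ n ∧ ∀ x, ‖(g ^ n) x - x‖ ≤ ε * ‖x‖ := by
  haveI : ProperSpace (E →L[ℝ] E) := FiniteDimensional.proper ℝ (E →L[ℝ] E)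
  set m := max N 1 with hm
  set u : ℕ → (E →L[ℝ] E) := fun k =>
    ((g ^ (k * m)).toContinuousLinearEquiv : E →L[ℝ] E) with hu
  have hbd : ∀ k, u k ∈ Metric.closedBall (0 : E →L[ℝ] E) 1 := by
    intro k
    rw [mem_closedBall_zero_iff]
    refine ContinuousLinearMap.opNorm_le_bound _ zero_le_one fun x => ?_
    rw [one_mul]
    exact le_of_eq ((g ^ (k * m)).norm_map x)
  obtain ⟨a, -, φ, hφ, hlim⟩ := tendsto_subseq_of_bounded Metric.isBounded_closedBall hbd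
  have hc := hlim.cauchySeq
  obtain ⟨K, hK⟩ := Metric.cauchySeq_iff'.mp hc ε hε
  have h1 := hK (K + 1) (by omega)
  have hlt : φ K < φ (K + 1) := hφ (by omega)
  obtain ⟨j, hj⟩ := Nat.exists_eq_add_of_lt hlt
  refine ⟨(j + 1) * m, ?_, ?_, fun x => ?_⟩
  · calc N ≤ m := le_max_left _ _
      _ ≤ (j + 1) * m := Nat.le_mul_of_pos_left _ (by omega)
  · have : 1 ≤ m := le_max_right _ _
    nlinarith
  · have h2 : (g ^ (φ (K + 1) * m)) x - (g ^ (φ K * m)) x =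
        (g ^ (φ K * m)) ((g ^ ((j + 1) * m)) x - x) := by
      rw [map_sub, hj]
      congr 1
      rw [show (φ K + j + 1) * m = φ K * m + (j + 1) * m by ring, pow_add]
      rfl
    have h3 : ‖(g ^ (φ (K + 1) * m)) x - (g ^ (φ K * m)) x‖ ≤ ε * ‖x‖ := by
      have h4 : (u (φ (K + 1)) - u (φ K)) x =
          (g ^ (φ (K + 1) * m)) x - (g ^ (φ K * m)) x := rfl
      rw [← h4]
      refine le_trans (ContinuousLinearMap.le_opNorm _ _) ?_
      refine mul_le_mul_of_nonneg_right ?_ (norm_nonneg _)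
      rw [Function.comp_apply, Function.comp_apply, dist_eq_norm] at h1
      exact h1.le
    rw [h2, LinearIsometryEquiv.norm_map] at h3
    exact h3

/-- reflection in the hyperplane orthogonal to `a` -/
noncomputable def hr (a : E) : E ≃ₗᵢ[ℝ] E := (ℝ ∙ a)ᗮ.reflection

lemma hr_apply (a v : E) : hr a v = v - (2 * (⟪a, v⟫ / ‖a‖ ^ 2)) • a := by
  unfold hr
  rw [Submodule.reflection_orthogonal_apply, Submodule.reflection_singleton_apply]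
  simp only [RCLike.ofReal_real_eq_id, id_eq]
  rw [neg_sub, two_smul, two_mul, add_smul]

lemma hr_det {a : E} (ha : a ≠ 0) : LinearMap.det (hr a).toLinearEquiv.toLinearMap = -1 := by
  unfold hr
  have h := (ℝ ∙ a)ᗮ.det_reflection
  rw [Submodule.orthogonal_orthogonal, finrank_span_singleton ha, pow_one] at h
  exact h

lemma hr_hr (a v : E) : hr a (hr a v) = v := by
  unfold hr
  exact Submodule.reflection_reflection _ _

/-- A rotation that maps `x` to `y`. -/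
noncomputable def rot (x y : E) : E ≃ₗᵢ[ℝ] E := hr (x + y) * hr x

lemma rot_apply (x y v : E) : rot x y v = hr (x + y) (hr x v) := rfl

lemma rot_map {x y : E} (hx : x ≠ 0) (h : ‖x‖ = ‖y‖) (hxy : x + y ≠ 0) : rot x y x = y := by
  have hx' : ‖x‖ ^ 2 ≠ 0 := by positivity
  have hxy' : ‖x + y‖ ^ 2 ≠ 0 := pow_ne_zero _ (norm_ne_zero_iff.mpr hxy)
  have h1 : hr x x = -x := by
    rw [hr_apply, real_inner_self_eq_norm_sq, div_self hx', mul_one, two_smul]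
    abel
  rw [rot_apply, h1, hr_apply, inner_neg_right]
  have h2 : ‖x + y‖ ^ 2 = 2 * ⟪x + y, x⟫ := by
    rw [inner_add_left, real_inner_self_eq_norm_sq, norm_add_sq_real, ← h,
      real_inner_comm x y]
    ring
  have h3 : 2 * (-⟪x + y, x⟫ / ‖x + y‖ ^ 2) = -1 := by
    rw [neg_div, mul_neg, ← mul_div_assoc, ← h2, div_self hxy']
  rw [h3, neg_one_smul, sub_neg_eq_add]
  abel

lemma rot_det {x y : E} (hx : x ≠ 0) (hxy : x + y ≠ 0) :
    LinearMap.det (rot x y).toLinearEquiv.toLinearMap = 1 := by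
  have h : (rot x y).toLinearEquiv.toLinearMap =
      (hr (x + y)).toLinearEquiv.toLinearMap ∘ₗ (hr x).toLinearEquiv.toLinearMap := rfl
  rw [h, LinearMap.det_comp, hr_det hx, hr_det hxy]
  norm_num

lemma normalize_sub {x b : E} (hx : x ≠ 0) (hb : b ≠ 0) :
    ‖(‖x‖⁻¹ • x - ‖b‖⁻¹ • b)‖ ≤ 2 * (‖x - b‖ / ‖x‖) := by
  have hx' : 0 < ‖x‖ := norm_pos_iff.mpr hx
  have hb' : 0 < ‖b‖ := norm_pos_iff.mpr hb
  have h1 : ‖x‖⁻¹ • x - ‖b‖⁻¹ • b = ‖x‖⁻¹ • (x - b) + (‖x‖⁻¹ - ‖b‖⁻¹) • b := by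
    rw [smul_sub, sub_smul]; abel
  rw [h1]
  have h2 : ‖(‖x‖⁻¹ - ‖b‖⁻¹) • b‖ ≤ ‖x - b‖ / ‖x‖ := by
    rw [norm_smul, Real.norm_eq_abs]
    have h3 : (‖x‖⁻¹ - ‖b‖⁻¹) = (‖b‖ - ‖x‖) / (‖x‖ * ‖b‖) := by field_simp
    rw [h3, abs_div, abs_of_pos (mul_pos hx' hb')]
    have h4 : |‖b‖ - ‖x‖| ≤ ‖x - b‖ := by
      rw [abs_sub_comm]
      exact abs_norm_sub_norm_le x b
    calc |‖b‖ - ‖x‖| / (‖x‖ * ‖b‖) * ‖b‖ = |‖b‖ - ‖x‖| / ‖x‖ := by field_simp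
      _ ≤ _ := div_le_div_of_nonneg_right h4 hx'.le
  calc _ ≤ ‖‖x‖⁻¹ • (x - b)‖ + ‖(‖x‖⁻¹ - ‖b‖⁻¹) • b‖ := norm_add_le _ _
    _ ≤ ‖x - b‖ / ‖x‖ + ‖x - b‖ / ‖x‖ := by
        refine add_le_add ?_ h2
        rw [norm_smul, norm_inv, norm_norm, div_eq_inv_mul]
    _ = _ := by ring

lemma rot_near {x y : E} (hx : x ≠ 0) (hxy : x + y ≠ 0) (v : E) :
    ‖rot x y v - v‖ ≤ 4 * (‖y - x‖ / ‖x‖) * ‖v‖ := by
  set w := hr x v with hw
  have hv : v = hr x w := by rw [hw, hr_hr]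
  have hnw : ‖w‖ = ‖v‖ := by rw [hw, LinearIsometryEquiv.norm_map]
  set b : E := (1 / 2 : ℝ) • (x + y) with hb
  have hb0 : b ≠ 0 := smul_ne_zero (by norm_num) hxy
  have hproj : ∀ a : E, a ≠ 0 → (⟪a, w⟫ / ‖a‖ ^ 2) • a = ⟪‖a‖⁻¹ • a, w⟫ • (‖a‖⁻¹ • a) := by
    intro a ha
    have ha' : ‖a‖ ≠ 0 := norm_ne_zero_iff.mpr ha
    rw [real_inner_smul_left, smul_smul]
    congr 1
    field_simp
  have hbb : ‖b‖⁻¹ • b = ‖x + y‖⁻¹ • (x + y) := by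
    rw [hb, norm_smul, smul_smul]
    congr 1
    have : ‖x + y‖ ≠ 0 := norm_ne_zero_iff.mpr hxy
    rw [Real.norm_of_nonneg (by norm_num)]
    field_simp
  have h1 : rot x y v - v = (2 : ℝ) • (⟪‖x‖⁻¹ • x, w⟫ • (‖x‖⁻¹ • x) -
      ⟪‖b‖⁻¹ • b, w⟫ • (‖b‖⁻¹ • b)) := by
    have e1 : rot x y v - v = hr (x + y) w - hr x w := by
      rw [rot_apply, ← hw, ← hv]
    rw [e1, hr_apply, hr_apply, hbb, ← hproj x hx, ← hproj (x + y) hxy, mul_smul, mul_smul]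
    rw [smul_sub]
    abel
  set p := ‖x‖⁻¹ • x with hp
  set q := ‖b‖⁻¹ • b with hq
  have hnp : ‖p‖ = 1 := by
    rw [hp, norm_smul, norm_inv, norm_norm, inv_mul_cancel₀ (norm_ne_zero_iff.mpr hx)]
  have hnq : ‖q‖ = 1 := by
    rw [hq, norm_smul, norm_inv, norm_norm, inv_mul_cancel₀ (norm_ne_zero_iff.mpr hb0)]
  have h2 : ‖⟪p, w⟫ • p - ⟪q, w⟫ • q‖ ≤ 2 * ‖p - q‖ * ‖w‖ := by
    have h3 : ⟪p, w⟫ • p - ⟪q, w⟫ • q = ⟪p - q, w⟫ • p + ⟪q, w⟫ • (p - q) := by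
      rw [inner_sub_left, sub_smul, smul_sub]; abel
    rw [h3]
    calc _ ≤ ‖⟪p - q, w⟫ • p‖ + ‖⟪q, w⟫ • (p - q)‖ := norm_add_le _ _
      _ ≤ ‖p - q‖ * ‖w‖ + ‖w‖ * ‖p - q‖ := by
          refine add_le_add ?_ ?_
          · rw [norm_smul, hnp, mul_one]
            exact norm_inner_le_norm _ _
          · rw [norm_smul]
            refine mul_le_mul_of_nonneg_right ?_ (norm_nonneg _)
            have := norm_inner_le_norm (𝕜 := ℝ) q w
            rwa [hnq, one_mul] at this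
      _ = _ := by ring
  have h4 := normalize_sub hx hb0
  rw [← hp, ← hq] at h4
  have h5 : ‖x - b‖ = ‖y - x‖ / 2 := by
    have : x - b = (-1 / 2 : ℝ) • (y - x) := by
      rw [hb]
      module
    rw [this, norm_smul]
    norm_num
    ring
  rw [h5] at h4
  rw [h1, norm_smul, Real.norm_of_nonneg (by norm_num), ← hnw]
  have h6 : 2 * ‖p - q‖ * ‖w‖ ≤ 2 * (2 * (‖y - x‖ / 2 / ‖x‖)) * ‖w‖ :=
    mul_le_mul_of_nonneg_right (by linarith) (norm_nonneg _)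
  calc 2 * ‖⟪p, w⟫ • p - ⟪q, w⟫ • q‖ ≤ 2 * (2 * (2 * (‖y - x‖ / 2 / ‖x‖)) * ‖w‖) := by linarith
    _ = 4 * (‖y - x‖ / ‖x‖) * ‖w‖ := by ring

end Pool.Agent.Q320.AP
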