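import Pool.Agent.Q320.AP.Words

/-! Two words with the same ratio, rotations close to the identity, and far apart. -/

set_option autoImplicit false
set_option linter.unusedSectionVars false

namespace Pool.Agent.Q320.AP

open Filter Topology
open scoped RealInnerProductSpace

variable {E : Type*} [NormedAddCommGroup E] [InnerProductSpace ℝ E] [FiniteDimensional ℝ E]
variable {ι : Type*} {c : ι → ℝ} {O : ι → (E ≃ₗᵢ[ℝ] E)} {t : ι → E}

lemma exists_fix (hc : ∀ i, 0 < c i) (hc1 : ∀ i, c i < 1) (i : ι) :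
    ∃ a, sim c O t i a = a := by
  haveI : CompleteSpace E := FiniteDimensional.complete ℝ E
  have h : ContractingWith ⟨c i, (hc i).le⟩ (sim c O t i) := by
    refine ⟨?_, ?_⟩
    · exact_mod_cast hc1 i
    · refine LipschitzWith.of_dist_le_mul fun x y => ?_
      rw [dist_eq_norm, dist_eq_norm]
      unfold sim
      rw [add_sub_add_right_eq_sub, ← smul_sub, ← map_sub, norm_smul,
        LinearIsometryEquiv.norm_map, Real.norm_of_nonneg (hc i).le]
      exact le_refl _
  exact ⟨h.fixedPoint _, h.fixedPoint_isFixedPt⟩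

lemma sim_sub (x y : E) (i : ι) : sim c O t i x - sim c O t i y = c i • O i (x - y) := by
  unfold sim
  rw [map_sub, smul_sub]; abel

lemma Sw_replicate {i : ι} {a : E} (ha : sim c O t i a = a) (n : ℕ) (x : E) :
    Sw c O t (List.replicate n i) x = a + (c i ^ n) • (O i ^ n) (x - a) := by
  induction n generalizing x with
  | zero => simp [Sw]
  | succ n ih =>
    rw [List.replicate_succ]
    show sim c O t i (Sw c O t (List.replicate n i) x) = _
    rw [ih]
    have h1 : sim c O t i (a + (c i ^ n) • (O i ^ n) (x - a)) - sim c O t i a =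
        c i • O i ((c i ^ n) • (O i ^ n) (x - a)) := by
      rw [sim_sub]; congr 2; abel
    rw [ha, sub_eq_iff_eq_add] at h1
    rw [h1, map_smul, smul_smul, add_comm, pow_succ' (c i), pow_succ' (O i)]
    rfl

lemma exists_two_fix (hc : ∀ i, 0 < c i) (hc1 : ∀ i, c i < 1) {F : Set E}
    (hcp : IsCompact F) (hnt : F.Nontrivial) (hF : F = ⋃ i, sim c O t i '' F) :
    ∃ i j a b, sim c O t i a = a ∧ sim c O t j b = b ∧ a ≠ b := by
  by_contra hcon
  push Not at hcon
  have hne : Nonempty ι := by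
    obtain ⟨x, hx⟩ := hnt.nonempty
    rw [hF] at hx
    obtain ⟨i, -⟩ := Set.mem_iUnion.mp hx
    exact ⟨i⟩
  obtain ⟨i0⟩ := hne
  obtain ⟨a, ha⟩ := exists_fix (t := t) (O := O) hc hc1 i0
  have hall : ∀ i, sim c O t i a = a := by
    intro i
    obtain ⟨b, hb⟩ := exists_fix (t := t) (O := O) hc hc1 i
    have := hcon i0 i a b ha hb
    rw [this]; exact hb
  have hcont : ContinuousOn (fun x => ‖x - a‖) F := by fun_prop
  obtain ⟨x, hx, hmax⟩ := hcp.exists_isMaxOn hnt.nonempty hcont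
  have hx0 : ‖x - a‖ = 0 := by
    have hx' := hx
    rw [hF] at hx'
    obtain ⟨i, y, hy, hxy⟩ := Set.mem_iUnion.mp hx'
    have h1 : ‖x - a‖ = c i * ‖y - a‖ := by
      have : x - a = sim c O t i y - sim c O t i a := by rw [hxy, hall i]
      rw [this, sim_sub, norm_smul, LinearIsometryEquiv.norm_map,
        Real.norm_of_nonneg (hc i).le]
    have h2 : ‖y - a‖ ≤ ‖x - a‖ := hmax hy
    have h3 := norm_nonneg (x - a)
    have h4 : c i * ‖y - a‖ ≤ c i * ‖x - a‖ := mul_le_mul_of_nonneg_left h2 (hc i).le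
    nlinarith [hc1 i]
  obtain ⟨y, hy, z, hz, hyz⟩ := hnt
  have hz0 : ∀ y ∈ F, y = a := by
    intro y hy
    have h1 : ‖y - a‖ ≤ ‖x - a‖ := hmax hy
    rw [hx0] at h1
    exact sub_eq_zero.mp (norm_le_zero_iff.mp h1)
  exact hyz ((hz0 y hy).trans (hz0 z hz).symm)

lemma pair_lemma (hc : ∀ i, 0 < c i) (hc1 : ∀ i, c i < 1)
    (h : ∃ i j a b, sim c O t i a = a ∧ sim c O t j b = b ∧ a ≠ b) :
    ∃ κ > 0, ∀ δ > 0, ∃ A B : List ι, cw c A = cw c B ∧ (∀ x, ‖Ow O A x - x‖ ≤ δ * ‖x‖) ∧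
      (∀ x, ‖Ow O B x - x‖ ≤ δ * ‖x‖) ∧ κ ≤ ‖Sw c O t A 0 - Sw c O t B 0‖ := by
  obtain ⟨i, j, a, b, ha, hb, hab⟩ := h
  have hab' : 0 < ‖a - b‖ := norm_pos_iff.mpr (sub_ne_zero.mpr hab)
  have hi : 0 < 1 - c i := by linarith [hc1 i]
  have hj : 0 < 1 - c j := by linarith [hc1 j]
  set κ := 1 / 2 * (1 - c i) * (1 - c j) * ‖a - b‖ with hκ
  have hκ0 : 0 < κ := by positivity
  refine ⟨κ, hκ0, fun δ hδ => ?_⟩
  set Q := 2 * ‖a - b‖ + 2 * ‖a‖ + 2 * ‖b‖ with hQ
  have hQ0 : 0 < Q := by positivity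
  set δ' := min (δ / 2) (κ / Q) with hδ'
  have hδ0 : 0 < δ' := lt_min (by positivity) (by positivity)
  have hδ1 : δ' ≤ δ / 2 := min_le_left _ _
  have hδ2 : δ' * Q ≤ κ := by
    have : δ' ≤ κ / Q := min_le_right _ _
    rwa [le_div_iff₀ hQ0] at this
  obtain ⟨p, -, hp1, hp⟩ := recur (O i) hδ0 0
  obtain ⟨q, -, hq1, hq⟩ := recur (O j) hδ0 0
  set U := O i ^ p with hU
  set V := O j ^ q with hV
  have hcu0 : 0 < c i ^ p := pow_pos (hc i) _
  have hcv0 : 0 < c j ^ q := pow_pos (hc j) _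
  have hcu1 : c i ^ p ≤ c i := by
    calc c i ^ p ≤ c i ^ 1 := pow_le_pow_of_le_one (hc i).le (hc1 i).le hp1
      _ = c i := pow_one _
  have hcv1 : c j ^ q ≤ c j := by
    calc c j ^ q ≤ c j ^ 1 := pow_le_pow_of_le_one (hc j).le (hc1 j).le hq1
      _ = c j := pow_one _
  set cu := c i ^ p with hcu
  set cv := c j ^ q with hcv
  refine ⟨List.replicate p i ++ List.replicate q j, List.replicate q j ++ List.replicate p i,
    ?_, ?_, ?_, ?_⟩
  · rw [cw_append, cw_append, mul_comm]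
  · intro x
    rw [Ow_append, Ow_replicate, Ow_replicate, ← hU, ← hV]
    have : (U * V) x - x = (U (V x) - V x) + (V x - x) := by
      show U (V x) - x = _
      abel
    rw [this]
    have h1 := hp (V x)
    rw [LinearIsometryEquiv.norm_map] at h1
    have h2 := hq x
    have h3 := norm_nonneg x
    calc _ ≤ ‖U (V x) - V x‖ + ‖V x - x‖ := norm_add_le _ _
      _ ≤ δ' * ‖x‖ + δ' * ‖x‖ := add_le_add h1 h2
      _ ≤ δ * ‖x‖ := by nlinarith
  · intro x
    rw [Ow_append, Ow_replicate, Ow_replicate, ← hU, ← hV]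
    have : (V * U) x - x = (V (U x) - U x) + (U x - x) := by
      show V (U x) - x = _
      abel
    rw [this]
    have h1 := hq (U x)
    rw [LinearIsometryEquiv.norm_map] at h1
    have h2 := hp x
    have h3 := norm_nonneg x
    calc _ ≤ ‖V (U x) - U x‖ + ‖U x - x‖ := norm_add_le _ _
      _ ≤ δ' * ‖x‖ + δ' * ‖x‖ := add_le_add h1 h2
      _ ≤ δ * ‖x‖ := by nlinarith
  · rw [Sw_append, Sw_append, Sw_replicate ha, Sw_replicate hb, Sw_replicate hb,
      Sw_replicate ha, ← hU, ← hV, ← hcu, ← hcv]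
    have e1 : (a + cu • U (b + cv • V (0 - b) - a)) - (b + cv • V (a + cu • U (0 - a) - b)) =
        ((1 - cu) * (1 - cv)) • (a - b) + (cu • (U (b - a) - (b - a)) -
          cv • (V (a - b) - (a - b)) - (cu * cv) • (U (V b) - b) +
          (cu * cv) • (V (U a) - a)) := by
      simp only [zero_sub, map_add, map_sub, map_neg, map_smul]
      module
    rw [e1]
    have n1 : ‖cu • (U (b - a) - (b - a))‖ ≤ δ' * ‖a - b‖ := by
      rw [norm_smul, Real.norm_of_nonneg hcu0.le]
      have h1 := hp (b - a)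
      rw [norm_sub_rev b a] at h1
      have h2 : cu ≤ 1 := by linarith
      have h3 := norm_nonneg (U (b - a) - (b - a))
      nlinarith
    have n2 : ‖cv • (V (a - b) - (a - b))‖ ≤ δ' * ‖a - b‖ := by
      rw [norm_smul, Real.norm_of_nonneg hcv0.le]
      have h1 := hq (a - b)
      have h2 : cv ≤ 1 := by linarith
      have h3 := norm_nonneg (V (a - b) - (a - b))
      nlinarith
    have hcc : cu * cv ≤ 1 := mul_le_one₀ (by linarith) hcv0.le (by linarith)
    have hcc0 : 0 ≤ cu * cv := by positivity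
    have n3 : ‖(cu * cv) • (U (V b) - b)‖ ≤ δ' * (2 * ‖b‖) := by
      rw [norm_smul, Real.norm_of_nonneg hcc0]
      have h1 := hp (V b)
      rw [LinearIsometryEquiv.norm_map] at h1
      have h2 := hq b
      have h4 : ‖U (V b) - b‖ ≤ δ' * (2 * ‖b‖) := by
        calc ‖U (V b) - b‖ = ‖(U (V b) - V b) + (V b - b)‖ := by congr 1; abel
          _ ≤ _ := norm_add_le _ _
          _ ≤ _ := by linarith
      have h3 := norm_nonneg (U (V b) - b)
      nlinarith
    have n4 : ‖(cu * cv) • (V (U a) - a)‖ ≤ δ' * (2 * ‖a‖) := by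
      rw [norm_smul, Real.norm_of_nonneg hcc0]
      have h1 := hq (U a)
      rw [LinearIsometryEquiv.norm_map] at h1
      have h2 := hp a
      have h4 : ‖V (U a) - a‖ ≤ δ' * (2 * ‖a‖) := by
        calc ‖V (U a) - a‖ = ‖(V (U a) - U a) + (U a - a)‖ := by congr 1; abel
          _ ≤ _ := norm_add_le _ _
          _ ≤ _ := by linarith
      have h3 := norm_nonneg (V (U a) - a)
      nlinarith
    have n5 : ‖cu • (U (b - a) - (b - a)) -
          cv • (V (a - b) - (a - b)) - (cu * cv) • (U (V b) - b) +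
          (cu * cv) • (V (U a) - a)‖ ≤ κ := by
      calc _ ≤ ‖cu • (U (b - a) - (b - a)) -
          cv • (V (a - b) - (a - b)) - (cu * cv) • (U (V b) - b)‖ +
          ‖(cu * cv) • (V (U a) - a)‖ := norm_add_le _ _
        _ ≤ (‖cu • (U (b - a) - (b - a)) -
          cv • (V (a - b) - (a - b))‖ + ‖(cu * cv) • (U (V b) - b)‖) +
          ‖(cu * cv) • (V (U a) - a)‖ := by gcongr; exact norm_sub_le _ _
        _ ≤ ((‖cu • (U (b - a) - (b - a))‖ +
          ‖cv • (V (a - b) - (a - b))‖) + ‖(cu * cv) • (U (V b) - b)‖) +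
          ‖(cu * cv) • (V (U a) - a)‖ := by gcongr; exact norm_sub_le _ _
        _ ≤ δ' * Q := by rw [hQ]; linarith
        _ ≤ κ := hδ2
    have n6 : 2 * κ ≤ ‖((1 - cu) * (1 - cv)) • (a - b)‖ := by
      have h1 : 0 ≤ (1 - cu) * (1 - cv) := mul_nonneg (by linarith) (by linarith)
      rw [norm_smul, Real.norm_of_nonneg h1]
      have h2 : (1 - c i) * (1 - c j) ≤ (1 - cu) * (1 - cv) :=
        mul_le_mul (by linarith) (by linarith) hj.le (by linarith)
      have h3 := mul_le_mul_of_nonneg_right h2 hab'.le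
      calc 2 * κ = (1 - c i) * (1 - c j) * ‖a - b‖ := by rw [hκ]; ring
        _ ≤ _ := h3
    set X := ((1 - cu) * (1 - cv)) • (a - b)
    set Y := cu • (U (b - a) - (b - a)) -
          cv • (V (a - b) - (a - b)) - (cu * cv) • (U (V b) - b) +
          (cu * cv) • (V (U a) - a)
    have h7 : ‖X‖ ≤ ‖X + Y‖ + ‖Y‖ := by
      calc ‖X‖ = ‖(X + Y) - Y‖ := by congr 1; abel
        _ ≤ _ := norm_sub_le _ _
    linarith

end Pool.Agent.Q320.AP
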