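import Pool.Agent.Q320.AP.Pair

/-! The main construction: adding one prescribed difference to a pattern. -/

set_option autoImplicit false
set_option linter.unusedSectionVars false

namespace Pool.Agent.Q320.AP

open Filter Topology
open scoped RealInnerProductSpace

variable {E : Type*} [NormedAddCommGroup E] [InnerProductSpace ℝ E] [FiniteDimensional ℝ E]
variable {ι : Type*} {c : ι → ℝ} {O : ι → (E ≃ₗᵢ[ℝ] E)} {t : ι → E}

/-- bound on the translation part of a word -/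
lemma tw_bound (hc : ∀ i, 0 < c i) (hc1 : ∀ i, c i < 1) {F : Set E} (hne : F.Nonempty)
    (hF : F = ⋃ i, sim c O t i '' F) {M : ℝ} (hM : ∀ x ∈ F, ‖x‖ ≤ M) (w : List ι) :
    ‖Sw c O t w 0‖ ≤ 2 * M := by
  obtain ⟨x, hx⟩ := hne
  have h1 : Sw c O t w 0 = Sw c O t w x - cw c w • Ow O w x := by
    rw [Sw_eq c O t w x]; abel
  rw [h1]
  have h2 : ‖cw c w • Ow O w x‖ ≤ M := by
    rw [norm_smul, LinearIsometryEquiv.norm_map, Real.norm_of_nonneg (cw_pos hc w).le]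
    have := cw_le_one hc hc1 w
    have h3 := norm_nonneg x
    have h4 := hM x hx
    nlinarith
  calc _ ≤ ‖Sw c O t w x‖ + ‖cw c w • Ow O w x‖ := norm_sub_le _ _
    _ ≤ M + M := add_le_add (hM _ (Sw_mem hF w hx)) h2
    _ = 2 * M := by ring

lemma sqrt_aux {a b : ℝ} (hb : 0 ≤ b) (hab : b ≤ a) :
    a - b ≤ Real.sqrt (a ^ 2 - b ^ 2) ∧ Real.sqrt (a ^ 2 - b ^ 2) ≤ a := by
  constructor
  · apply Real.le_sqrt_of_sq_le
    nlinarith
  · rw [Real.sqrt_le_left (by linarith)]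
    nlinarith

set_option maxHeartbeats 4000000 in
lemma words_lemma [Nonempty ι] (hc : ∀ i, 0 < c i) (hc1 : ∀ i, c i < 1) (hO : DenseRot O)
    {M : ℝ} (hM1 : 1 ≤ M) (hM : ∀ w : List ι, ‖Sw c O t w 0‖ ≤ 2 * M)
    {κ : ℝ} (hκ : 0 < κ)
    (hpair : ∀ δ > 0, ∃ A B : List ι, cw c A = cw c B ∧ (∀ x, ‖Ow O A x - x‖ ≤ δ * ‖x‖) ∧
      (∀ x, ‖Ow O B x - x‖ ≤ δ * ‖x‖) ∧ κ ≤ ‖Sw c O t A 0 - Sw c O t B 0‖)
    {W : Submodule ℝ E} {q0 : E} (hq0 : ‖q0‖ = 1) (hqW : q0 ∈ Wᗮ)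
    {δ : ℝ} (hδ : 0 < δ) (hδ1 : δ ≤ 1) {ε : ℝ} (hε : 0 < ε) {v : E} (hv : v ∈ W) :
    ∃ A B C D : List ι, cw c A = cw c B ∧
      (∀ x, ‖Ow O D (Ow O A (Ow O C x)) - x‖ ≤ δ * ‖x‖) ∧
      (∀ x, ‖Ow O D (Ow O B (Ow O C x)) - x‖ ≤ δ * ‖x‖) ∧
      ‖W.starProjection (Ow O D (Sw c O t A (Sw c O t C 0) - Sw c O t B (Sw c O t C 0))) -
        (cw c A * cw c C) • v‖ ≤ cw c A * cw c C * ε := by
  have hM0 : 0 < M := by linarith
  set δ2 := min (δ / 4) (min (κ * δ / (768 * M)) (κ / (8 * M))) with hδ2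
  have hδ20 : 0 < δ2 := lt_min (by positivity) (lt_min (by positivity) (by positivity))
  have hδ2a : δ2 ≤ δ / 4 := min_le_left _ _
  have hδ2b : δ2 * (768 * M) ≤ κ * δ := by
    have : δ2 ≤ κ * δ / (768 * M) := le_trans (min_le_right _ _) (min_le_left _ _)
    rwa [le_div_iff₀ (by positivity)] at this
  have hδ2c : δ2 * (8 * M) ≤ κ := by
    have : δ2 ≤ κ / (8 * M) := le_trans (min_le_right _ _) (min_le_right _ _)
    rwa [le_div_iff₀ (by positivity)] at this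
  obtain ⟨A, B, hAB, hA, hB, hT⟩ := hpair δ2 hδ20
  set T0 := Sw c O t A 0 - Sw c O t B 0 with hT0
  have hT0pos : 0 < ‖T0‖ := lt_of_lt_of_le hκ hT
  have hT0ne : T0 ≠ 0 := norm_pos_iff.mp hT0pos
  -- the direction
  obtain ⟨q, hq1, hqW', hTq⟩ : ∃ q : E, ‖q‖ = 1 ∧ q ∈ Wᗮ ∧ T0 + ‖T0‖ • q ≠ 0 := by
    by_cases h : T0 + ‖T0‖ • q0 = 0
    · refine ⟨-q0, by rw [norm_neg, hq0], Wᗮ.neg_mem hqW, ?_⟩
      rw [smul_neg]
      intro h'
      apply hT0ne
      have h2 : (2 : ℝ) • T0 = 0 := by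
        calc (2 : ℝ) • T0 = (T0 + ‖T0‖ • q0) + (T0 + -(‖T0‖ • q0)) := by rw [two_smul]; abel
          _ = 0 := by rw [h, h', add_zero]
      exact (smul_eq_zero.mp h2).resolve_left (by norm_num)
    · exact ⟨q0, hq0, hqW, h⟩
  set g0 := rot T0 (‖T0‖ • q) with hg0
  have hg0T : g0 T0 = ‖T0‖ • q := by
    refine rot_map hT0ne ?_ hTq
    rw [norm_smul, hq1, mul_one, norm_norm]
  have hg0G : InG c O g0⁻¹ := InG_inv hc hc1 (InG_rot hc hc1 hO (rot_det hT0ne hTq))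
  have hδ3 : 0 < δ / 48 := by positivity
  have hcA0 : 0 < cw c A := cw_pos hc A
  have hcA1 : cw c A ≤ 1 := cw_le_one hc hc1 A
  set e := κ * δ / (192 * (‖v‖ + 1)) with he
  have he0 : 0 < e := by positivity
  have hev : e * ‖v‖ ≤ κ * δ / 192 := by
    rw [he]
    have h1 : 0 ≤ ‖v‖ := norm_nonneg v
    rw [div_mul_eq_mul_div, div_le_div_iff₀ (by positivity) (by norm_num)]
    have : 0 ≤ κ * δ := by positivity
    nlinarith
  obtain ⟨C, hC, hCe⟩ := hg0G (δ / 48) hδ3 e he0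
  have hcC0 : 0 < cw c C := cw_pos hc C
  set z := Sw c O t C 0 with hz
  have hzM : ‖z‖ ≤ 2 * M := hM C
  set t' := Sw c O t A z - Sw c O t B z with ht'
  have ht'e : t' - T0 = cw c A • ((Ow O A z - z) - (Ow O B z - z)) := by
    rw [ht', hT0, Sw_eq c O t A z, Sw_eq c O t B z, ← hAB]
    rw [sub_sub_sub_cancel_right, smul_sub]
    abel
  have ht'T : ‖t' - T0‖ ≤ 4 * M * δ2 := by
    rw [ht'e, norm_smul, Real.norm_of_nonneg hcA0.le]
    have h1 : ‖(Ow O A z - z) - (Ow O B z - z)‖ ≤ δ2 * ‖z‖ + δ2 * ‖z‖ :=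
      le_trans (norm_sub_le _ _) (add_le_add (hA z) (hB z))
    have h2 := norm_nonneg ((Ow O A z - z) - (Ow O B z - z))
    nlinarith
  have ht'κ : κ / 2 ≤ ‖t'‖ := by
    have h1 : ‖T0‖ ≤ ‖t'‖ + ‖t' - T0‖ := by
      calc ‖T0‖ = ‖t' - (t' - T0)‖ := by congr 1; abel
        _ ≤ _ := norm_sub_le _ _
    nlinarith
  have ht'0 : 0 < ‖t'‖ := by linarith
  have ht'ne : t' ≠ 0 := norm_pos_iff.mp ht'0
  set x1 := (Ow O C)⁻¹ t' with hx1
  have hCx1 : Ow O C x1 = t' := by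
    have : (Ow O C * (Ow O C)⁻¹) t' = t' := by rw [mul_inv_cancel]; rfl
    exact this
  have hnx1 : ‖x1‖ = ‖t'‖ := by rw [hx1, LinearIsometryEquiv.norm_map]
  have hx1ne : x1 ≠ 0 := by rw [← norm_pos_iff, hnx1]; exact ht'0
  have hx1q : ‖x1 - ‖t'‖ • q‖ ≤ δ / 48 * ‖t'‖ + 8 * M * δ2 := by
    have h1 : ‖x1 - g0 t'‖ ≤ δ / 48 * ‖t'‖ := by
      rw [← LinearIsometryEquiv.norm_map (Ow O C) (x1 - g0 t'), map_sub, hCx1]
      have h2 := hC (g0 t')
      rw [LinearIsometryEquiv.norm_map] at h2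
      have h3 : g0⁻¹ (g0 t') = t' := by
        have : (g0⁻¹ * g0) t' = t' := by rw [inv_mul_cancel]; rfl
        exact this
      rw [h3, norm_sub_rev] at h2
      exact h2
    have h4 : ‖g0 t' - g0 T0‖ ≤ 4 * M * δ2 := by
      rw [← map_sub, LinearIsometryEquiv.norm_map]; exact ht'T
    have h5 : ‖‖T0‖ • q - ‖t'‖ • q‖ ≤ 4 * M * δ2 := by
      rw [← sub_smul, norm_smul, hq1, mul_one, Real.norm_eq_abs]
      refine le_trans (abs_norm_sub_norm_le T0 t') ?_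
      rw [norm_sub_rev]; exact ht'T
    calc ‖x1 - ‖t'‖ • q‖ = ‖(x1 - g0 t') + ((g0 t' - g0 T0) + (‖T0‖ • q - ‖t'‖ • q))‖ := by
          congr 1; rw [hg0T]; abel
      _ ≤ ‖x1 - g0 t'‖ + (‖g0 t' - g0 T0‖ + ‖‖T0‖ • q - ‖t'‖ • q‖) :=
          le_trans (norm_add_le _ _) (by gcongr; exact norm_add_le _ _)
      _ ≤ _ := by linarith
  set σ := (cw c A * cw c C) • v with hσ
  have hσn : ‖σ‖ ≤ κ * δ / 192 := by
    rw [hσ, norm_smul, Real.norm_of_nonneg (by positivity)]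
    refine le_trans ?_ hev
    refine mul_le_mul_of_nonneg_right ?_ (norm_nonneg v)
    calc cw c A * cw c C ≤ 1 * cw c C := mul_le_mul_of_nonneg_right hcA1 hcC0.le
      _ ≤ e := by rw [one_mul]; exact hCe
  have hσW : σ ∈ W := W.smul_mem _ hv
  have hσt : ‖σ‖ ≤ ‖t'‖ := by
    have : κ * δ / 192 ≤ κ / 2 := by nlinarith
    linarith
  obtain ⟨hs1, hs2⟩ := sqrt_aux (norm_nonneg σ) hσt
  set s := Real.sqrt (‖t'‖ ^ 2 - ‖σ‖ ^ 2) with hs
  have hsq : s ^ 2 = ‖t'‖ ^ 2 - ‖σ‖ ^ 2 := by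
    rw [hs, Real.sq_sqrt]
    have := norm_nonneg σ
    nlinarith
  set y1 := σ + s • q with hy1
  have horth : ⟪σ, s • q⟫ = 0 := by
    rw [real_inner_smul_right]
    have : ⟪σ, q⟫ = 0 := hqW' σ hσW
    rw [this, mul_zero]
  have hny1 : ‖y1‖ = ‖t'‖ := by
    have h1 : ‖y1‖ ^ 2 = ‖t'‖ ^ 2 := by
      rw [hy1, norm_add_sq_real, horth, norm_smul s q, hq1, mul_one, Real.norm_eq_abs, sq_abs,
        hsq]
      ring
    exact (sq_eq_sq₀ (norm_nonneg _) (norm_nonneg _)).mp h1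
  have hyx : ‖y1 - x1‖ ≤ 2 * ‖σ‖ + δ / 48 * ‖t'‖ + 8 * M * δ2 := by
    have h1 : ‖y1 - ‖t'‖ • q‖ ≤ 2 * ‖σ‖ := by
      have : y1 - ‖t'‖ • q = σ + (s - ‖t'‖) • q := by rw [hy1, sub_smul]; abel
      rw [this]
      refine le_trans (norm_add_le _ _) ?_
      rw [norm_smul (s - ‖t'‖) q, hq1, mul_one, Real.norm_eq_abs, abs_of_nonpos (by linarith)]
      linarith
    calc ‖y1 - x1‖ = ‖(y1 - ‖t'‖ • q) - (x1 - ‖t'‖ • q)‖ := by congr 1; abel
      _ ≤ _ := norm_sub_le _ _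
      _ ≤ _ := by linarith
  have hkey : 4 * (‖y1 - x1‖ / ‖x1‖) ≤ δ / 4 := by
    rw [hnx1, ← mul_div_assoc, div_le_iff₀ ht'0]
    have hδt : δ * (κ / 2) ≤ δ * ‖t'‖ := mul_le_mul_of_nonneg_left ht'κ hδ.le
    have h1 : 4 * (2 * ‖σ‖) ≤ δ / 12 * ‖t'‖ := by linarith
    have h2 : 4 * (8 * M * δ2) ≤ δ / 12 * ‖t'‖ := by linarith
    linarith
  have hxy0 : x1 + y1 ≠ 0 := by
    intro h
    have h1 : y1 - x1 = (-2 : ℝ) • x1 := by
      have : y1 = - x1 := by rw [eq_neg_iff_add_eq_zero, add_comm]; exact h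
      rw [this]; module
    rw [h1, norm_smul] at hkey
    have h2 : ‖x1‖ ≠ 0 := by rw [hnx1]; exact ht'0.ne'
    rw [mul_div_assoc, div_self h2] at hkey
    norm_num at hkey
    linarith
  set R := rot x1 y1 with hR
  have hRx : R x1 = y1 := rot_map hx1ne (by rw [hnx1, hny1]) hxy0
  have hRn : ∀ w, ‖R w - w‖ ≤ δ / 4 * ‖w‖ := fun w =>
    le_trans (rot_near hx1ne hxy0 w) (mul_le_mul_of_nonneg_right hkey (norm_nonneg w))
  have hRG : InG c O (R * (Ow O C)⁻¹) :=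
    InG_mul hc hc1 (InG_rot hc hc1 hO (rot_det hx1ne hxy0)) (InG_inv hc hc1 (InG_word hc hc1 C))
  set δ4 := min (δ / 4) (cw c A * cw c C * ε / ‖t'‖) with hδ4
  have hδ40 : 0 < δ4 := lt_min (by positivity) (by positivity)
  have hδ4a : δ4 ≤ δ / 4 := min_le_left _ _
  have hδ4b : δ4 * ‖t'‖ ≤ cw c A * cw c C * ε := by
    have : δ4 ≤ cw c A * cw c C * ε / ‖t'‖ := min_le_right _ _
    rwa [le_div_iff₀ ht'0] at this
  obtain ⟨D, hD, -⟩ := hRG δ4 hδ40 1 one_pos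
  have hnear : ∀ X : List ι, (∀ x, ‖Ow O X x - x‖ ≤ δ2 * ‖x‖) →
      ∀ x, ‖Ow O D (Ow O X (Ow O C x)) - x‖ ≤ δ * ‖x‖ := by
    intro X hX x
    have h1 : ‖Ow O D (Ow O X (Ow O C x)) - Ow O D (Ow O C x)‖ ≤ δ2 * ‖x‖ := by
      rw [← map_sub, LinearIsometryEquiv.norm_map]
      have := hX (Ow O C x)
      rwa [LinearIsometryEquiv.norm_map] at this
    have h2 : ‖Ow O D (Ow O C x) - R x‖ ≤ δ4 * ‖x‖ := by
      have := hD (Ow O C x)
      rw [LinearIsometryEquiv.norm_map] at this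
      have h3 : (R * (Ow O C)⁻¹) (Ow O C x) = R x := by
        have : ((Ow O C)⁻¹ * Ow O C) x = x := by rw [inv_mul_cancel]; rfl
        show R (((Ow O C)⁻¹ * Ow O C) x) = R x
        rw [this]
      rwa [h3] at this
    have h3 := hRn x
    have h4 := norm_nonneg x
    calc ‖Ow O D (Ow O X (Ow O C x)) - x‖
        = ‖(Ow O D (Ow O X (Ow O C x)) - Ow O D (Ow O C x)) +
          ((Ow O D (Ow O C x) - R x) + (R x - x))‖ := by congr 1; abel
      _ ≤ ‖Ow O D (Ow O X (Ow O C x)) - Ow O D (Ow O C x)‖ +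
          (‖Ow O D (Ow O C x) - R x‖ + ‖R x - x‖) :=
          le_trans (norm_add_le _ _) (by gcongr; exact norm_add_le _ _)
      _ ≤ δ * ‖x‖ := by nlinarith
  refine ⟨A, B, C, D, hAB, hnear A hA, hnear B hB, ?_⟩
  -- the displacement
  have hpy : W.starProjection y1 = σ := by
    rw [hy1, map_add, map_smul _ s q, Submodule.starProjection_eq_self_iff.mpr hσW,
      (Submodule.starProjection_apply_eq_zero_iff W).mpr hqW', smul_zero, add_zero]
  have h1 : ‖Ow O D t' - y1‖ ≤ δ4 * ‖t'‖ := by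
    have := hD t'
    have h3 : (R * (Ow O C)⁻¹) t' = y1 := by
      show R ((Ow O C)⁻¹ t') = y1
      rw [← hx1, hRx]
    rwa [h3] at this
  calc ‖W.starProjection (Ow O D t') - σ‖ = ‖W.starProjection (Ow O D t' - y1)‖ := by
        rw [map_sub W.starProjection (Ow O D t') y1, hpy]
    _ ≤ ‖Ow O D t' - y1‖ := by
        refine le_trans (ContinuousLinearMap.le_opNorm _ _) ?_
        have := Submodule.starProjection_norm_le W
        have h2 := norm_nonneg (Ow O D t' - y1)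
        nlinarith
    _ ≤ _ := le_trans h1 hδ4b

/-- `F` contains, up to small relative error and after projection, a homothetic copy of `P`. -/
def Pat (F : Set E) (W : Submodule ℝ E) (P : Set E) : Prop :=
  ∀ η > 0, ∃ ρ : ℝ, 0 < ρ ∧ ∃ τ : E, ∀ s ∈ P, ∃ x ∈ F,
    ‖W.starProjection x - (τ + ρ • s)‖ ≤ η * ρ

lemma Pat.mono {F : Set E} {W : Submodule ℝ E} {P Q : Set E} (h : Pat F W Q) (hPQ : P ⊆ Q) :
    Pat F W P := by
  intro η hη
  obtain ⟨ρ, hρ, τ, h1⟩ := h η hη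
  exact ⟨ρ, hρ, τ, fun s hs => h1 s (hPQ hs)⟩

lemma pat_zero {F : Set E} (hne : F.Nonempty) (W : Submodule ℝ E) : Pat F W {0} := by
  intro η hη
  obtain ⟨x, hx⟩ := hne
  refine ⟨1, one_pos, W.starProjection x, fun s hs => ⟨x, hx, ?_⟩⟩
  rw [Set.mem_singleton_iff] at hs
  rw [hs, smul_zero, add_zero, sub_self, norm_zero]
  linarith

lemma pat_step [Nonempty ι] (hc : ∀ i, 0 < c i) (hc1 : ∀ i, c i < 1) (hO : DenseRot O)
    {F : Set E} (hne : F.Nonempty) (hF : F = ⋃ i, sim c O t i '' F)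
    {M : ℝ} (hM1 : 1 ≤ M) (hM : ∀ x ∈ F, ‖x‖ ≤ M)
    {κ : ℝ} (hκ : 0 < κ)
    (hpair : ∀ δ > 0, ∃ A B : List ι, cw c A = cw c B ∧ (∀ x, ‖Ow O A x - x‖ ≤ δ * ‖x‖) ∧
      (∀ x, ‖Ow O B x - x‖ ≤ δ * ‖x‖) ∧ κ ≤ ‖Sw c O t A 0 - Sw c O t B 0‖)
    {W : Submodule ℝ E} {q0 : E} (hq0 : ‖q0‖ = 1) (hqW : q0 ∈ Wᗮ)
    {P : Set E} (hP : Pat F W P) {u : E} (hu : u ∈ W) :
    Pat F W (P ∪ (fun s => u + s) '' P) := by
  intro η hη
  obtain ⟨ρ, hρ, τ, h1⟩ := hP (η / 2) (half_pos hη)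
  have hM0 : 0 < M := by linarith
  set δ1 := min 1 (η * ρ / (4 * M)) with hδ1
  have hδ10 : 0 < δ1 := lt_min one_pos (by positivity)
  have hδ1b : δ1 * (4 * M) ≤ η * ρ := by
    have : δ1 ≤ η * ρ / (4 * M) := min_le_right _ _
    rwa [le_div_iff₀ (by positivity)] at this
  obtain ⟨A, B, C, D, hAB, hA, hB, hdis⟩ := words_lemma hc hc1 hO hM1
    (tw_bound hc hc1 hne hF hM) hκ hpair hq0 hqW hδ10 (min_le_left _ _)
    (ε := ρ * η / 4) (by positivity) (v := ρ • u) (W.smul_mem _ hu)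
  have hcA : 0 < cw c A := cw_pos hc A
  have hcC : 0 < cw c C := cw_pos hc C
  have hcD : 0 < cw c D := cw_pos hc D
  set k := cw c D * cw c A * cw c C with hk
  have hk0 : 0 < k := by positivity
  set z := Sw c O t C 0 with hz
  have hcomp : ∀ X : List ι, cw c X = cw c A → ∀ x, Sw c O t (D ++ (X ++ C)) x =
      k • Ow O D (Ow O X (Ow O C x)) + Sw c O t D (Sw c O t X z) := by
    intro X hX x
    rw [Sw_append, Sw_append, Sw_eq c O t C x, ← hz, Sw_eq c O t X (_ + z),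
      Sw_eq c O t X z, Sw_eq c O t D (_ + _), Sw_eq c O t D (cw c X • Ow O X z + _)]
    simp only [map_add, map_smul, smul_add, smul_smul, hX, hk]
    module
  have hdiff : W.starProjection (Sw c O t D (Sw c O t A z)) =
      W.starProjection (Sw c O t D (Sw c O t B z)) +
      cw c D • W.starProjection (Ow O D (Sw c O t A z - Sw c O t B z)) := by
    rw [Sw_eq c O t D (Sw c O t A z), Sw_eq c O t D (Sw c O t B z)]
    simp only [map_add, map_sub, map_smul, smul_sub]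
    abel
  have hπ : ∀ x : E, ‖W.starProjection x‖ ≤ ‖x‖ := by
    intro x
    refine le_trans (ContinuousLinearMap.le_opNorm _ _) ?_
    have := Submodule.starProjection_norm_le W
    have h2 := norm_nonneg x
    nlinarith
  have herr : ∀ X : List ι, (∀ x, ‖Ow O D (Ow O X (Ow O C x)) - x‖ ≤ δ1 * ‖x‖) →
      ∀ x ∈ F, ‖k • W.starProjection (Ow O D (Ow O X (Ow O C x)) - x)‖ ≤ k * (η * ρ / 4) := by
    intro X hX x hx
    rw [norm_smul, Real.norm_of_nonneg hk0.le]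
    refine mul_le_mul_of_nonneg_left ?_ hk0.le
    calc _ ≤ _ := hπ _
      _ ≤ δ1 * ‖x‖ := hX x
      _ ≤ δ1 * M := mul_le_mul_of_nonneg_left (hM x hx) hδ10.le
      _ ≤ _ := by linarith
  have hmain : ∀ x, ∀ s, ‖W.starProjection x - (τ + ρ • s)‖ ≤ η / 2 * ρ →
      ‖k • (W.starProjection x - (τ + ρ • s))‖ ≤ k * (η / 2 * ρ) := by
    intro x s h
    rw [norm_smul, Real.norm_of_nonneg hk0.le]
    exact mul_le_mul_of_nonneg_left h hk0.le
  refine ⟨k * ρ, by positivity, k • τ + W.starProjection (Sw c O t D (Sw c O t B z)), ?_⟩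
  rintro s (hs | ⟨s', hs, rfl⟩)
  · obtain ⟨x, hx, hx'⟩ := h1 s hs
    refine ⟨_, Sw_mem hF (D ++ (B ++ C)) hx, ?_⟩
    have e1 : W.starProjection (Sw c O t (D ++ (B ++ C)) x) -
        (k • τ + W.starProjection (Sw c O t D (Sw c O t B z)) + (k * ρ) • s) =
        k • W.starProjection (Ow O D (Ow O B (Ow O C x)) - x) +
        k • (W.starProjection x - (τ + ρ • s)) := by
      rw [hcomp B hAB.symm x]
      simp only [map_add, map_sub, map_smul, smul_sub, smul_add, smul_smul]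
      abel
    rw [e1]
    refine le_trans (norm_add_le _ _) ?_
    have h2 := herr B hB x hx
    have h3 := hmain x s hx'
    have h4 : 0 < k * (η * ρ) := by positivity
    nlinarith
  · obtain ⟨x, hx, hx'⟩ := h1 s' hs
    refine ⟨_, Sw_mem hF (D ++ (A ++ C)) hx, ?_⟩
    have e1 : W.starProjection (Sw c O t (D ++ (A ++ C)) x) -
        (k • τ + W.starProjection (Sw c O t D (Sw c O t B z)) + (k * ρ) • (u + s')) =
        k • W.starProjection (Ow O D (Ow O A (Ow O C x)) - x) +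
        k • (W.starProjection x - (τ + ρ • s')) +
        cw c D • (W.starProjection (Ow O D (Sw c O t A z - Sw c O t B z)) -
          (cw c A * cw c C) • (ρ • u)) := by
      rw [hcomp A rfl x, map_add, hdiff]
      simp only [map_sub, map_smul, smul_sub, smul_add, smul_smul]
      rw [show cw c D * (cw c A * cw c C * ρ) = k * ρ by rw [hk]; ring]
      abel
    rw [e1]
    refine le_trans (norm_add_le _ _) ?_
    refine le_trans (add_le_add (norm_add_le _ _) (le_refl _)) ?_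
    have h2 := herr A hA x hx
    have h3 := hmain x s' hx'
    have h4 : ‖cw c D • (W.starProjection (Ow O D (Sw c O t A z - Sw c O t B z)) -
          (cw c A * cw c C) • (ρ • u))‖ ≤ k * (η * ρ / 4) := by
      rw [norm_smul, Real.norm_of_nonneg hcD.le]
      calc _ ≤ cw c D * (cw c A * cw c C * (ρ * η / 4)) :=
            mul_le_mul_of_nonneg_left hdis hcD.le
        _ = _ := by rw [hk]; ring
    linarith

end Pool.Agent.Q320.AP
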