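import Pool.Agent.Q320.AP.Grp

/-! Words in a family of similarities. -/

set_option autoImplicit false

namespace Pool.Agent.Q320.AP

open Filter Topology
open scoped RealInnerProductSpace

variable {E : Type*} [NormedAddCommGroup E] [InnerProductSpace ℝ E] [FiniteDimensional ℝ E]
variable {ι : Type*}

/-- the similarity with ratio `c i`, orthogonal part `O i` and translation `t i` -/
def sim (c : ι → ℝ) (O : ι → (E ≃ₗᵢ[ℝ] E)) (t : ι → E) (i : ι) (x : E) : E := c i • O i x + t i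

/-- ratio of a word -/
def cw (c : ι → ℝ) : List ι → ℝ
  | [] => 1
  | i :: w => c i * cw c w

/-- orthogonal part of a word -/
def Ow (O : ι → (E ≃ₗᵢ[ℝ] E)) : List ι → (E ≃ₗᵢ[ℝ] E)
  | [] => 1
  | i :: w => O i * Ow O w

/-- the composition of the similarities of a word -/
def Sw (c : ι → ℝ) (O : ι → (E ≃ₗᵢ[ℝ] E)) (t : ι → E) : List ι → E → E
  | [] => fun x => x
  | i :: w => fun x => sim c O t i (Sw c O t w x)

lemma Sw_eq (c : ι → ℝ) (O : ι → (E ≃ₗᵢ[ℝ] E)) (t : ι → E) (w : List ι) (x : E) :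
    Sw c O t w x = cw c w • Ow O w x + Sw c O t w 0 := by
  induction w with
  | nil => simp [Sw, cw, Ow]
  | cons i w ih =>
    have h1 : Sw c O t (i :: w) x = c i • O i (Sw c O t w x) + t i := rfl
    have h2 : Sw c O t (i :: w) 0 = c i • O i (Sw c O t w 0) + t i := rfl
    have h3 : Ow O (i :: w) x = O i (Ow O w x) := rfl
    have h4 : cw c (i :: w) = c i * cw c w := rfl
    rw [h1, h2, h3, h4, ih, map_add, map_smul, smul_add, smul_smul, add_assoc]

lemma Sw_append (c : ι → ℝ) (O : ι → (E ≃ₗᵢ[ℝ] E)) (t : ι → E) (v w : List ι) (x : E) :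
    Sw c O t (v ++ w) x = Sw c O t v (Sw c O t w x) := by
  induction v with
  | nil => rfl
  | cons i v ih =>
    show sim c O t i (Sw c O t (v ++ w) x) = sim c O t i (Sw c O t v (Sw c O t w x))
    rw [ih]

lemma cw_append (c : ι → ℝ) (v w : List ι) : cw c (v ++ w) = cw c v * cw c w := by
  induction v with
  | nil => simp [cw]
  | cons i v ih =>
    show c i * cw c (v ++ w) = c i * cw c v * cw c w
    rw [ih, mul_assoc]

lemma Ow_append (O : ι → (E ≃ₗᵢ[ℝ] E)) (v w : List ι) : Ow O (v ++ w) = Ow O v * Ow O w := by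
  induction v with
  | nil => simp [Ow]
  | cons i v ih =>
    show O i * Ow O (v ++ w) = O i * Ow O v * Ow O w
    rw [ih, mul_assoc]

lemma cw_replicate (c : ι → ℝ) (i : ι) (n : ℕ) : cw c (List.replicate n i) = c i ^ n := by
  induction n with
  | zero => rfl
  | succ n ih =>
    rw [List.replicate_succ]
    show c i * cw c (List.replicate n i) = _
    rw [ih, pow_succ']

lemma Ow_replicate (O : ι → (E ≃ₗᵢ[ℝ] E)) (i : ι) (n : ℕ) :
    Ow O (List.replicate n i) = O i ^ n := by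
  induction n with
  | zero => rfl
  | succ n ih =>
    rw [List.replicate_succ]
    show O i * Ow O (List.replicate n i) = _
    rw [ih, pow_succ']

lemma cw_pos {c : ι → ℝ} (hc : ∀ i, 0 < c i) (w : List ι) : 0 < cw c w := by
  induction w with
  | nil => exact one_pos
  | cons i w ih => exact mul_pos (hc i) ih

lemma cw_le_one {c : ι → ℝ} (hc : ∀ i, 0 < c i) (hc1 : ∀ i, c i < 1) (w : List ι) :
    cw c w ≤ 1 := by
  induction w with
  | nil => exact le_refl _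
  | cons i w ih => exact mul_le_one₀ (hc1 i).le (cw_pos hc w).le ih

lemma Sw_mem {c : ι → ℝ} {O : ι → (E ≃ₗᵢ[ℝ] E)} {t : ι → E} {F : Set E}
    (hF : F = ⋃ i, sim c O t i '' F) (w : List ι) {x : E} (hx : x ∈ F) : Sw c O t w x ∈ F := by
  induction w with
  | nil => exact hx
  | cons i w ih =>
    rw [hF]
    exact Set.mem_iUnion.mpr ⟨i, _, ih, rfl⟩

/-- `g` can be approximated by the orthogonal parts of words of small ratio. -/
def InG (c : ι → ℝ) (O : ι → (E ≃ₗᵢ[ℝ] E)) (g : E ≃ₗᵢ[ℝ] E) : Prop :=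
  ∀ ε > 0, ∀ e > 0, ∃ w : List ι, (∀ x, ‖Ow O w x - g x‖ ≤ ε * ‖x‖) ∧ cw c w ≤ e

section
variable {c : ι → ℝ} {O : ι → (E ≃ₗᵢ[ℝ] E)}

lemma InG_one [Nonempty ι] (hc : ∀ i, 0 < c i) (hc1 : ∀ i, c i < 1) : InG c O 1 := by
  intro ε hε e he
  obtain ⟨i⟩ := ‹Nonempty ι›
  obtain ⟨N, hN⟩ := exists_pow_lt_of_lt_one he (hc1 i)
  obtain ⟨n, hn, -, h⟩ := recur (O i) hε N
  refine ⟨List.replicate n i, fun x => ?_, ?_⟩
  · rw [Ow_replicate]; exact h x
  · rw [cw_replicate]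
    exact le_trans (pow_le_pow_of_le_one (hc i).le (hc1 i).le hn) hN.le

lemma InG_mul (hc : ∀ i, 0 < c i) (hc1 : ∀ i, c i < 1) {g h : E ≃ₗᵢ[ℝ] E}
    (hg : InG c O g) (hh : InG c O h) : InG c O (g * h) := by
  intro ε hε e he
  obtain ⟨v, hv, hv'⟩ := hg (ε / 2) (half_pos hε) e he
  obtain ⟨w, hw, hw'⟩ := hh (ε / 2) (half_pos hε) e he
  refine ⟨v ++ w, fun x => ?_, ?_⟩
  · rw [Ow_append]
    have h1 : (Ow O v * Ow O w) x - (g * h) x =
        (Ow O v (Ow O w x) - g (Ow O w x)) + g (Ow O w x - h x) := by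
      rw [map_sub]
      show Ow O v (Ow O w x) - g (h x) = _
      abel
    rw [h1]
    refine le_trans (norm_add_le _ _) ?_
    rw [LinearIsometryEquiv.norm_map]
    have h2 := hv (Ow O w x)
    rw [LinearIsometryEquiv.norm_map] at h2
    have h3 := hw x
    linarith
  · rw [cw_append]
    calc cw c v * cw c w ≤ cw c v * 1 := mul_le_mul_of_nonneg_left (cw_le_one hc hc1 w)
          (cw_pos hc v).le
      _ ≤ e := by rw [mul_one]; exact hv'

lemma InG_lim {g : E ≃ₗᵢ[ℝ] E}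
    (h : ∀ ε > 0, ∃ k : E ≃ₗᵢ[ℝ] E, InG c O k ∧ ∀ x, ‖k x - g x‖ ≤ ε * ‖x‖) : InG c O g := by
  intro ε hε e he
  obtain ⟨k, hk, hk'⟩ := h (ε / 2) (half_pos hε)
  obtain ⟨w, hw, hw'⟩ := hk (ε / 2) (half_pos hε) e he
  refine ⟨w, fun x => ?_, hw'⟩
  calc ‖Ow O w x - g x‖ = ‖(Ow O w x - k x) + (k x - g x)‖ := by congr 1; abel
    _ ≤ _ := norm_add_le _ _
    _ ≤ ε * ‖x‖ := by
      have := hw x
      have := hk' x
      linarith

lemma InG_gen [Nonempty ι] (hc : ∀ i, 0 < c i) (hc1 : ∀ i, c i < 1) (i : ι) :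
    InG c O (O i) := by
  intro ε hε e he
  obtain ⟨w, hw, hw'⟩ := InG_one (O := O) hc hc1 ε hε e he
  refine ⟨i :: w, fun x => ?_, ?_⟩
  · show ‖O i (Ow O w x) - O i x‖ ≤ _
    rw [← map_sub, LinearIsometryEquiv.norm_map]
    exact hw x
  · show c i * cw c w ≤ e
    calc c i * cw c w ≤ 1 * cw c w := mul_le_mul_of_nonneg_right (hc1 i).le (cw_pos hc w).le
      _ ≤ e := by rw [one_mul]; exact hw'

lemma InG_pow [Nonempty ι] (hc : ∀ i, 0 < c i) (hc1 : ∀ i, c i < 1) {g : E ≃ₗᵢ[ℝ] E}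
    (hg : InG c O g) (n : ℕ) : InG c O (g ^ n) := by
  induction n with
  | zero => rw [pow_zero]; exact InG_one hc hc1
  | succ n ih => rw [pow_succ]; exact InG_mul hc hc1 ih hg

lemma InG_inv [Nonempty ι] (hc : ∀ i, 0 < c i) (hc1 : ∀ i, c i < 1) {g : E ≃ₗᵢ[ℝ] E}
    (hg : InG c O g) : InG c O g⁻¹ := by
  refine InG_lim fun ε hε => ?_
  obtain ⟨n, -, hn1, hn⟩ := recur g hε 0
  obtain ⟨m, rfl⟩ : ∃ m, n = m + 1 := ⟨n - 1, by omega⟩
  refine ⟨g ^ m, InG_pow hc hc1 hg m, fun x => ?_⟩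
  have h1 : ‖(g ^ m) x - g⁻¹ x‖ = ‖(g ^ (m + 1)) x - x‖ := by
    rw [← LinearIsometryEquiv.norm_map g ((g ^ m) x - g⁻¹ x), map_sub]
    have h2 : g (g⁻¹ x) = x := by
      have : (g * g⁻¹) x = x := by rw [mul_inv_cancel]; rfl
      exact this
    have h3 : g ((g ^ m) x) = (g ^ (m + 1)) x := by
      rw [pow_succ']; rfl
    rw [h2, h3]
  rw [h1]
  exact hn x

lemma InG_closure [Nonempty ι] (hc : ∀ i, 0 < c i) (hc1 : ∀ i, c i < 1) {g : E ≃ₗᵢ[ℝ] E}
    (hg : g ∈ Subgroup.closure (Set.range O)) : InG c O g := by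
  induction hg using Subgroup.closure_induction with
  | mem x hx => obtain ⟨i, rfl⟩ := hx; exact InG_gen hc hc1 i
  | one => exact InG_one hc hc1
  | mul x y _ _ h1 h2 => exact InG_mul hc hc1 h1 h2
  | inv x _ h => exact InG_inv hc hc1 h

lemma InG_word [Nonempty ι] (hc : ∀ i, 0 < c i) (hc1 : ∀ i, c i < 1) (w : List ι) :
    InG c O (Ow O w) := by
  induction w with
  | nil => exact InG_one hc hc1
  | cons i w ih => exact InG_mul hc hc1 (InG_gen hc hc1 i) ih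

end

/-- the rotations are dense -/
def DenseRot (O : ι → (E ≃ₗᵢ[ℝ] E)) : Prop :=
  ∀ g : E ≃ₗᵢ[ℝ] E, LinearMap.det g.toLinearEquiv.toLinearMap = 1 → ∀ ε > 0,
    ∃ h ∈ Subgroup.closure (Set.range O), ∀ x, ‖h x - g x‖ ≤ ε * ‖x‖

lemma InG_rot [Nonempty ι] {c : ι → ℝ} {O : ι → (E ≃ₗᵢ[ℝ] E)} (hc : ∀ i, 0 < c i)
    (hc1 : ∀ i, c i < 1) (hO : DenseRot O) {g : E ≃ₗᵢ[ℝ] E}
    (hg : LinearMap.det g.toLinearEquiv.toLinearMap = 1) : InG c O g := by
  refine InG_lim fun ε hε => ?_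
  obtain ⟨h, hh, hh'⟩ := hO g hg ε hε
  exact ⟨h, InG_closure hc hc1 hh, hh'⟩

end Pool.Agent.Q320.AP
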